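import Pool.Agent.helper32.NN.Spec

set_option autoImplicit false

open Submodule

noncomputable section

namespace Pool.Agent.NN

universe u v

theorem CHO_ind {K : Type u} {U : Type v} [Field K] [Ring U] [Algebra K U]
    (𝒜 ℬ : ℝ → Submodule K U) (hind : iSupIndep 𝒜) (hle : ∀ g, ℬ g ≤ 𝒜 g)
    (hsup : ⨆ g, 𝒜 g ≤ ⨆ g, ℬ g) (g : ℝ) : 𝒜 g ≤ ℬ g := by
  have h1 : 𝒜 g ≤ ℬ g ⊔ ⨆ h, ⨆ (_ : h ≠ g), ℬ h := by
    refine (le_iSup 𝒜 g).trans (hsup.trans (iSup_le fun h => ?_))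
    by_cases hg : h = g
    · rw [hg]
      exact le_sup_left
    · exact le_sup_of_le_right (le_iSup₂_of_le h hg le_rfl)
  have h2 : 𝒜 g ≤ (ℬ g ⊔ ⨆ h, ⨆ (_ : h ≠ g), ℬ h) ⊓ 𝒜 g := le_inf h1 le_rfl
  rw [sup_inf_assoc_of_le _ (hle g)] at h2
  have h3 : (⨆ h, ⨆ (_ : h ≠ g), ℬ h) ⊓ 𝒜 g ≤ ⊥ := by
    have h4 : (⨆ h, ⨆ (_ : h ≠ g), ℬ h) ≤ ⨆ h, ⨆ (_ : h ≠ g), 𝒜 h :=
      iSup₂_mono fun h _ => hle h
    have h5 := (hind g).le_bot
    rw [inf_comm] at h5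
    exact (inf_le_inf_right _ h4).trans h5
  exact h2.trans (sup_le le_rfl (h3.trans bot_le))

theorem CHO_split {K : Type u} {U : Type v} [Field K] [Ring U] [Algebra K U] (A : Submodule K U)
    (hper : A * A = A) (𝒜 : ℝ → Submodule K U) (hGr : Gr K U A ℝ (fun r s => r + s) 𝒜)
    (N : Submodule K U) (b : ℝ) (v : U) (hv : v ∈ 𝒜 b) (hvN : v ∉ N) :
    ∃ (c e : ℝ) (z w : U), c + e = b ∧ z ∈ 𝒜 c ∧ w ∈ 𝒜 e ∧ z * w ∉ N := by
  by_contra hno
  push Not at hno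
  apply hvN
  let ℬ : ℝ → Submodule K U := fun g => ⨆ c, ⨆ e, ⨆ (_ : c + e = g), 𝒜 c * 𝒜 e
  have h1 : ∀ g, ℬ g ≤ 𝒜 g := by
    intro g
    refine iSup_le fun c => iSup_le fun e => iSup_le fun hce => ?_
    have := hGr.mul c e
    rwa [hce] at this
  have h2 : ⨆ g, 𝒜 g ≤ ⨆ g, ℬ g := by
    rw [hGr.sup]
    conv_lhs => rw [← hper]
    rw [← hGr.sup, Submodule.iSup_mul]
    refine iSup_le fun c => ?_
    rw [Submodule.mul_iSup]
    refine iSup_le fun e => ?_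
    refine le_iSup_of_le (c + e) ?_
    exact le_iSup_of_le c (le_iSup_of_le e (le_iSup_of_le rfl le_rfl))
  have h3 := CHO_ind 𝒜 ℬ hGr.ind h1 h2 b
  have h4 : ℬ b ≤ N := by
    refine iSup_le fun c => iSup_le fun e => iSup_le fun hce => ?_
    rw [Submodule.mul_le]
    exact fun z hz w hw => hno c e z w hce hz hw
  exact h4 (h3 hv)

/-- CHO -/
theorem CHO (hPER : PER_stmt.{u, v}) (hBAD : BAD_stmt) : CHO_stmt.{u, v} := by
  intro K U _ _ _ A hC 𝒜 hGr hpos T hT hTA D δ hD hδ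
  have hper := hPER K U A hC
  have hle : ∀ g, 𝒜 g ≤ A := fun g => by
    rw [← hGr.sup]
    exact le_iSup 𝒜 g
  have hdeg : ∀ (g : ℝ) (x : U), x ∈ 𝒜 g → x ∉ T → 0 < g := by
    intro g x hx hxT
    apply hpos
    intro h0
    rw [h0, Submodule.mem_bot] at hx
    exact hxT (hx ▸ T.zero_mem)
  by_contra hno
  push Not at hno
  obtain ⟨d, x, hx, hxT⟩ : ∃ (d : ℝ) (x : U), x ∈ 𝒜 d ∧ x ∉ T := by
    by_contra h1
    push Not at h1
    apply hTA
    apply le_antisymm hT.1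
    rw [← hGr.sup]
    exact iSup_le fun g => fun x hx => h1 g x hx
  have hd : 0 < d := hdeg d x hx hxT
  set FS : Set ℝ := {t : ℝ | d / 2 ≤ t ∧ ∃ n : ℕ, 1 ≤ n ∧
    ∃ s ∈ AddSubmonoid.closure (D : Set ℝ), n * t + s = δ} with hFS
  have hFSfin : FS.Finite := hBAD D δ (d / 2) hD hδ (by linarith)
  set H : Set ℝ := {a : ℝ | ∃ u ∈ 𝒜 a, ∃ w ∈ 𝒜 (d - a), u * w ∉ T} with hH
  have hHsub : H ⊆ FS ∪ (fun t => d - t) '' FS := by
    rintro a ⟨u, hu, w, hw, huw⟩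
    have huT : u ∉ T := fun h => huw (hT.2.2 (Submodule.mul_mem_mul h (hle _ hw)))
    have hwT : w ∉ T := fun h => huw (hT.2.1 (Submodule.mul_mem_mul (hle _ hu) h))
    have ha : 0 < a := hdeg a u hu huT
    have hda : 0 < d - a := hdeg _ w hw hwT
    by_cases hc : d / 2 ≤ a
    · left
      exact ⟨hc, hno a ha ⟨u, hu, huT⟩⟩
    · right
      refine ⟨d - a, ⟨by push Not at hc; linarith, hno (d - a) hda ⟨w, hw, hwT⟩⟩, ?_⟩
      dsimp only
      ring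
  have hHfin : H.Finite := (hFSfin.union (hFSfin.image _)).subset hHsub
  have hHne : H.Nonempty := by
    obtain ⟨c, e, z, w, hce, hz, hw, hzw⟩ := CHO_split A hper 𝒜 hGr T d x hx hxT
    refine ⟨c, z, hz, w, ?_, hzw⟩
    rwa [← hce, add_sub_cancel_left]
  obtain ⟨a, haH, hamax⟩ := Set.exists_max_image H id hHfin hHne
  obtain ⟨u, hu, w, hw, huw⟩ := haH
  obtain ⟨c, e, z, w', hce, hz, hw', hzw⟩ := CHO_split A hper 𝒜 hGr
    (T.comap (LinearMap.mulLeft K u)) (d - a) w hw (by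
      rw [Submodule.mem_comap, LinearMap.mulLeft_apply]
      exact huw)
  rw [Submodule.mem_comap, LinearMap.mulLeft_apply, ← mul_assoc] at hzw
  have hzT : z ∉ T := by
    intro h
    apply hzw
    have h1 : u * z ∈ T := hT.2.1 (Submodule.mul_mem_mul (hle _ hu) h)
    exact hT.2.2 (Submodule.mul_mem_mul h1 (hle _ hw'))
  have hc : 0 < c := hdeg c z hz hzT
  have hmem : a + c ∈ H := by
    refine ⟨u * z, hGr.mul a c (Submodule.mul_mem_mul hu hz), w', ?_, hzw⟩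
    have h1 : d - (a + c) = e := by linarith
    rw [h1]
    exact hw'
  have := hamax (a + c) hmem
  simp only [id] at this
  linarith

end Pool.Agent.NN
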